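import Pool.Agent.Helper66_D2.Tool
import Pool.Agent.Helper91_D1.Rsd

/-!
# Squad PP, part D2, module RSD: restriction to `N`
-/

open scoped BigOperators

set_option linter.unusedSectionVars false

noncomputable section

namespace Pool.Agent.PP.CD2.H4

open Pool.Agent.PP Pool.Agent.Helper51_AWC Pool.Agent.Helper79_WRA Pool.Agent.PP.H20
  Pool.Agent.PP.CD2.H66

variable {F : Type} [Field F] {G : Type} [Group G] [Finite G]

/-- restriction to `N` -/
def res (N : Subgroup G) (a : G → F) : N → F := fun t => a t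

theorem res_mulF {N : Subgroup G} {a c : G → F} (ha : SpF N a) :
    mulF (res N a) (res N c) = res N (mulF a c) := by
  funext t
  have h := D1.H91.fsum_sub N (fun g : G => a g * c (g⁻¹ * (t : G)))
    (fun x hx => by rw [ha x hx, zero_mul])
  exact h.symm

theorem res_sum {N : Subgroup G} {ι : Type} (s : Finset ι) (a : ι → G → F) :
    res N (∑ k ∈ s, a k) = ∑ k ∈ s, res N (a k) := by
  funext t
  rw [Finset.sum_apply]
  exact Finset.sum_apply _ _ _

theorem res_smul {N : Subgroup G} (α : F) (a : G → F) : res N (α • a) = α • res N a := rfl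

theorem res_pwF {N : Subgroup G} {w : G → F} (hw : SpF N w) (a : G → F) (s : ℕ) :
    pwF (res N w) s (res N a) = res N (pwF w s a) := by
  induction s with
  | zero => rfl
  | succ s ih => rw [pwF_succ, pwF_succ, ih, res_mulF hw]

theorem res_inj {N : Subgroup G} {a c : G → F} (ha : SpF N a) (hc : SpF N c)
    (h : res N a = res N c) : a = c := by
  funext x
  by_cases hx : x ∈ N
  · exact congrFun h ⟨x, hx⟩
  · rw [ha x hx, hc x hx]

theorem res_sp {N C : Subgroup G} {a : G → F} (ha : SpF C a) : SpF (C.subgroupOf N) (res N a) :=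
  fun x hx => ha x fun h => hx (Subgroup.mem_subgroupOf.2 h)

theorem res_cm {N C : Subgroup G} {a : G → F} (ha : CmF C a) : CmF (C.subgroupOf N) (res N a) :=
  fun c hc x => ha c (Subgroup.mem_subgroupOf.1 hc) x

theorem ext_sp {N C : Subgroup G} (a : N → F) (ha : SpF (C.subgroupOf N) a) :
    SpF C (ext0 N a) := by
  intro x hx
  by_cases h : x ∈ N
  · rw [H46.ext0_of_mem _ h]
    exact ha ⟨x, h⟩ fun hc => hx (Subgroup.mem_subgroupOf.1 hc)
  · rw [H46.ext0_of_not_mem _ h]

theorem res_ext {N : Subgroup G} (a : N → F) : res N (ext0 N a) = a := H46.restr_ext0 a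

theorem umf_res {N C : Subgroup G} (hC : C ≤ N) {b w i : G → F} {q : ℕ} (h : UMF C b w i q) :
    UMF (C.subgroupOf N) (res N b) (res N w) (res N i) q := by
  have hb := h.sb.mono hC
  have hw := h.sw.mono hC
  have hi := h.si.mono hC
  refine ⟨res_sp h.sb, res_sp h.sw, res_sp h.si, res_cm h.cb, res_cm h.cw, ?_, ?_, ?_, ?_, ?_, ?_,
    ?_, ?_⟩
  · rw [res_mulF hb, h.bb]
  · rw [res_mulF hb, h.bw]
  · rw [res_mulF hi, h.ii]
  · rw [res_mulF hb, h.bi]
  · rw [res_pwF hw, h.nil]
    rfl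
  · intro h0
    rw [res_pwF hw] at h0
    exact h.nz (res_inj (hw.pwF hi _) (SpF.zero N) h0)
  · intro a ha
    obtain ⟨α, hα⟩ := h.loc (ext0 N a) (ext_sp a ha)
    refine ⟨α, ?_⟩
    have h1 : mulF (ext0 N a) i = mulF (ext0 N a) i := rfl
    have ha' : SpF N (ext0 N a) := (ext_sp a ha).mono hC
    have h2 := congrArg (res N) hα
    rw [← res_mulF hi, ← res_mulF ha', res_ext, res_sum] at h2
    rw [h2]
    refine Finset.sum_congr rfl fun s _ => ?_
    rw [res_smul, res_pwF hw]
  · obtain ⟨m, x, y, hxy, hs⟩ := h.full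
    refine ⟨m, fun k => res N (x k), fun k => res N (y k),
      fun k => ⟨res_sp (hxy k).1, res_sp (hxy k).2⟩, ?_⟩
    rw [← hs, res_sum]
    refine Finset.sum_congr rfl fun k _ => ?_
    rw [res_mulF hi, res_mulF ((hxy k).1.mono hC)]

theorem ums_res {N C : Subgroup G} (hC : C ≤ N) {b w : G → F} {q : ℕ} (h : UMS C b w q) :
    UMS (C.subgroupOf N) (res N b) (res N w) q := by
  have hb := (ums_sb h).mono hC
  obtain ⟨m, e, i, h1, h2, h3, h4⟩ := h
  refine ⟨m, fun t => res N (e t), fun t => res N (i t), fun t => ?_, fun t s hts => ?_, ?_, ?_⟩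
  · have := umf_res hC (h1 t)
    rwa [← res_mulF ((h1 t).sb.mono hC)] at this
  · rw [res_mulF ((h1 t).sb.mono hC), h2 t s hts]
    rfl
  · rw [← h3, res_sum]
  · rw [res_mulF hb, h4]

theorem zpowers_sub {N : Subgroup G} (y : N) :
    (Subgroup.zpowers (y : G)).subgroupOf N = Subgroup.zpowers y := by
  ext x
  rw [Subgroup.mem_subgroupOf, Subgroup.mem_zpowers_iff, Subgroup.mem_zpowers_iff]
  constructor
  · rintro ⟨k, hk⟩
    exact ⟨k, Subtype.ext (by rw [← hk]; rfl)⟩
  · rintro ⟨k, hk⟩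
    exact ⟨k, by rw [← hk]; rfl⟩

theorem zpowers_le {N : Subgroup G} (y : N) : Subgroup.zpowers (y : G) ≤ N :=
  Subgroup.zpowers_le.2 y.2

theorem NY_sub {N : Subgroup G} (y : N) : (NY (y : G)).subgroupOf N = NY y := by
  unfold NY
  rw [D1.H91.normalizer_subgroupOf (zpowers_le y), zpowers_sub]

theorem CY_sub {N : Subgroup G} (y : N) : (CY (y : G)).subgroupOf N = CY y := by
  unfold CY
  ext t
  rw [Subgroup.mem_subgroupOf, Subgroup.mem_centralizer_iff, Subgroup.mem_centralizer_iff]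
  constructor
  · intro h x hx
    refine Subtype.ext (h x ?_)
    rw [← zpowers_sub] at hx
    exact hx
  · intro h x hx
    have hN := zpowers_le y hx
    have := h ⟨x, hN⟩ (by
      rw [← zpowers_sub]
      exact hx)
    exact congrArg Subtype.val this

theorem bY_sub {N : Subgroup G} (y : N) (b : G → F) :
    bY y (fun t : N => b t) = fun t : N => bY (y : G) b t := by
  unfold bY
  rw [← zpowers_sub]
  exact D1.H91.br_restr (zpowers_le y) b

/-- RSD -/
theorem rsd : RsdStmt := by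
  intro ℓ _ F _ G _ _ n N P y₁ b w h
  have hN := NY_sub y₁
  have hC := CY_sub y₁
  have hb₁ := bY_sub y₁ b
  have hsw : SpF N w := (ums_sw h.ums).mono inf_le_left
  have hsb₁ : SpF N (bY (y₁ : G) b) := (bY_sp h.supp).mono inf_le_left
  refine ⟨⟨inferInstance, ?_, ?_, le_top, h.mem, ?_, ?_, fun x hx => absurd (Subgroup.mem_top x) hx,
    ?_, ?_, ?_, ?_, ?_, ?_, ?_⟩, ?_, hb₁⟩
  · have := h.cyc
    exact isCyclic_of_surjective (Subgroup.subgroupOfEquivOfLe h.le).symm
      (Subgroup.subgroupOfEquivOfLe h.le).symm.surjective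
  · rw [Nat.card_congr (Subgroup.subgroupOfEquivOfLe h.le).toEquiv]
    exact h.card
  · rw [← h.ord]
    exact (Subgroup.orderOf_coe y₁).symm
  · refine ⟨fun x y => h.idem.1 x y, ?_⟩
    have h1 := congrArg (res N) h.idem.2
    rw [← res_mulF h.supp] at h1
    exact h1
  · rw [top_sup_eq]
  · have h1 := D1.H91.prjB_restr (le_refl N) h.le b h.prj
    rwa [Subgroup.subgroupOf_self] at h1
  · have hPC : P ≤ CY (y₁ : G) := by
      have := h.cyc
      have hcomm : ∀ a b : P, a * b = b * a :=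
        fun a b => (IsCyclic.isMulCommutative (α := P)).is_comm.comm a b
      intro p hp
      refine Subgroup.mem_centralizer_iff.2 fun z hz => ?_
      have hzP : z ∈ P := (Subgroup.zpowers_le.2 h.mem) hz
      exact congrArg Subtype.val (hcomm ⟨z, hzP⟩ ⟨p, hp⟩)
    have h1 := D1.H91.prjB_restr (N := N) (R := N ⊓ NY (y₁ : G)) inf_le_left
      (le_inf h.le (hPC.trans (CY_le_NY _))) _ h.prj1
    have h2 : (N ⊓ NY (y₁ : G)).subgroupOf N = (⊤ : Subgroup N) ⊓ NY y₁ := by
      rw [top_inf_eq, ← hN]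
      ext t
      rw [Subgroup.mem_subgroupOf, Subgroup.mem_subgroupOf, Subgroup.mem_inf]
      exact ⟨fun h => h.2, fun h => ⟨t.2, h⟩⟩
    rw [h2] at h1
    rw [hb₁]
    exact h1
  · intro k τ hτ hb ψ hsum
    refine h.npj k (τ.comp (Subgroup.topEquiv (G := N)).symm.toMonoidHom) ⟨hτ.1, ?_⟩ ?_ ψ ?_
    · rw [← hτ.2]
      congr 1
      ext M
      constructor
      · rintro ⟨x, rfl⟩
        exact ⟨_, rfl⟩
      · rintro ⟨x, rfl⟩
        exact ⟨(x : N), rfl⟩
    · rw [← hb]
      unfold ev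
      refine finsum_eq_of_bijective (Subgroup.topEquiv (G := N)).symm
        (Subgroup.topEquiv (G := N)).symm.bijective ?_
      intro x
      rfl
    · rw [← hsum]
      refine finsum_eq_of_bijective (Subgroup.topEquiv (G := N)).symm
        (Subgroup.topEquiv (G := N)).symm.bijective ?_
      intro x
      rfl
  · have h1 := ums_res (N := N) inf_le_left h.ums
    have h2 : (N ⊓ CY (y₁ : G)).subgroupOf N = (⊤ : Subgroup N) ⊓ CY y₁ := by
      rw [top_inf_eq, ← hC]
      ext t
      rw [Subgroup.mem_subgroupOf, Subgroup.mem_subgroupOf, Subgroup.mem_inf]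
      exact ⟨fun h => h.2, fun h => ⟨t.2, h⟩⟩
    rw [h2] at h1
    rw [hb₁]
    exact h1
  · rw [hb₁]
    have h1 := congrArg (res N) h.pow
    rw [← res_pwF hsw] at h1
    exact h1
  · intro x hx
    rw [← hN, Subgroup.mem_subgroupOf] at hx
    obtain ⟨u, hu, hcu, he⟩ := h.eqv x hx
    have h2 : (N ⊓ CY (y₁ : G)).subgroupOf N = (⊤ : Subgroup N) ⊓ CY y₁ := by
      rw [top_inf_eq, ← hC]
      ext t
      rw [Subgroup.mem_subgroupOf, Subgroup.mem_subgroupOf, Subgroup.mem_inf]
      exact ⟨fun h => h.2, fun h => ⟨t.2, h⟩⟩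
    refine ⟨res N u, ?_, ?_, ?_⟩
    · rw [← h2]
      exact res_sp hu
    · rw [← h2]
      exact res_cm hcu
    · have h1 := congrArg (res N) he
      rw [← res_mulF hsw] at h1
      exact h1
  · rw [← hN]
    ext x
    rw [Subgroup.mem_subgroupOf]
    constructor
    · rintro ⟨a, rfl⟩
      exact (a : NY (y₁ : G)).2
    · intro hx
      exact ⟨⟨⟨x, hx⟩, x.2⟩, rfl⟩

end Pool.Agent.PP.CD2.H4
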